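import Mathlib
import Pool.Agent.N119.PS.Stm

set_option autoImplicit false

/-!
# Convergence of currents can be checked on cylinders
-/

namespace Pool.Agent.N339.PSC

open Pool.Agent.H472R3 Pool.Agent.H67R3.FSR Pool.Agent.H67R4.SR Pool.Agent.N119.PS
open MeasureTheory Topology Filter
open scoped ENNReal NNReal

variable {N : ℕ}

theorem ray_cons (ξ : Bd N) (n : ℕ) :
    (ray ξ (n + 1)).toWord = ξ.1 1 :: (ray ((lt (ξ.1 1))⁻¹ • ξ) n).toWord := by
  induction n with
  | zero =>
    rw [ray_word]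
    simp [ray]
  | succ n ih =>
    have e : ray ξ (n + 1) = lt (ξ.1 1) * ray ((lt (ξ.1 1))⁻¹ • ξ) n := by
      rw [← FreeGroup.mk_toWord (x := ray ξ (n + 1)), ih, mk_cons', FreeGroup.mk_toWord]
    rw [ray_word, ih, ray_word, List.cons_append, Bd.smul_apply, inv_inv, ← e]

theorem ray_cons_iff (ξ : Bd N) (c : Lt N) (p : List (Lt N)) :
    (ray ξ (c :: p).length).toWord = c :: p ↔
      ξ.1 1 = c ∧ (ray ((lt c)⁻¹ • ξ) p.length).toWord = p := by
  rw [List.length_cons, ray_cons, List.cons.injEq]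
  constructor
  · rintro ⟨rfl, h⟩
    exact ⟨rfl, h⟩
  · rintro ⟨rfl, h⟩
    exact ⟨rfl, h⟩

/-- Two-sided cylinders. -/
def SS (p l : List (Lt N)) : Set (Bd2 N) :=
  {q | q ∈ U 1 ∧ (ray q.1.1 p.length).toWord = p ∧ (ray q.1.2 l.length).toWord = l}

theorem mem_SS (p l : List (Lt N)) (q : Bd2 N) : q ∈ SS p l ↔
    q ∈ U 1 ∧ (ray q.1.1 p.length).toWord = p ∧ (ray q.1.2 l.length).toWord = l := Iff.rfl

theorem shift (c : Lt N) (p l : List (Lt N)) (q : Bd2 N) :
    (lt c)⁻¹ • q ∈ SS p (inv' c :: l) ↔ q ∈ SS (c :: p) l := by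
  rw [mem_SS, mem_SS, ray_cons_iff, ray_cons_iff, mem_U, mem_U, smul_fst, smul_snd,
    Bd.smul_apply, Bd.smul_apply, inv_inv, mul_one]
  have h1 := q.1.1.2 1 c
  have h2 := q.1.2.2 1 c
  rw [one_mul] at h1 h2
  have e : (lt (inv' c))⁻¹ • (lt c)⁻¹ • q.1.2 = q.1.2 := by
    rw [lt_inv', inv_inv, smul_inv_smul]
  rw [e]
  constructor
  · rintro ⟨a1, a2, a3, a4⟩
    rw [a3] at a1
    have b1 : q.1.1.1 1 = c := by
      by_contra hc
      exact a1 (h1.mpr hc)
    have b2 : q.1.2.1 1 ≠ c := h2.mp a3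
    exact ⟨by rw [b1]; exact b2.symm, ⟨b1, a2⟩, a4⟩
  · rintro ⟨a1, ⟨a2, a3⟩, a4⟩
    rw [a2] at a1
    have b2 := h2.mpr a1.symm
    refine ⟨?_, a3, b2, a4⟩
    rw [b2]
    intro hc
    exact (h1.mp hc) a2

theorem shift_all (p : List (Lt N)) : ∀ (l : List (Lt N)) (q : Bd2 N),
    (FreeGroup.mk p : FreeGroup (Fin N))⁻¹ • q ∈ SS [] (FreeGroup.invRev p ++ l) ↔ q ∈ SS p l := by
  induction p with
  | nil =>
    intro l q
    have e : (FreeGroup.mk ([] : List (Lt N)) : FreeGroup (Fin N)) = 1 := rfl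
    rw [e, inv_one, one_smul]
    rfl
  | cons c p ih =>
    intro l q
    rw [← shift, ← ih, smul_smul, mk_cons', mul_inv_rev]
    have e : FreeGroup.invRev (c :: p) ++ l = FreeGroup.invRev p ++ inv' c :: l := by
      simp [FreeGroup.invRev, inv']
    rw [e]

theorem isOpen_ray_fst (k : ℕ) (A : Set (FreeGroup (Fin N))) :
    IsOpen {q : Bd2 N | ray q.1.1 k ∈ A} := by
  rw [isOpen_iff_mem_nhds]
  intro q hq
  have h1 : Continuous fun q : Bd2 N => q.1.1 := continuous_fst.comp continuous_subtype_val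
  filter_upwards [h1.continuousAt.eventually (ray_locally q.1.1 k)] with q' hq'
  rw [hq']
  exact hq

theorem isOpen_ray_snd (k : ℕ) (A : Set (FreeGroup (Fin N))) :
    IsOpen {q : Bd2 N | ray q.1.2 k ∈ A} := by
  rw [isOpen_iff_mem_nhds]
  intro q hq
  have h1 : Continuous fun q : Bd2 N => q.1.2 := continuous_snd.comp continuous_subtype_val
  filter_upwards [h1.continuousAt.eventually (ray_locally q.1.2 k)] with q' hq'
  rw [hq']
  exact hq

theorem meas_SS (p l : List (Lt N)) : MeasurableSet (SS p l) := by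
  have : SS p l = U 1 ∩ ({q : Bd2 N | ray q.1.1 p.length ∈
      {g : FreeGroup (Fin N) | g.toWord = p}} ∩ {q : Bd2 N | ray q.1.2 l.length ∈
      {g : FreeGroup (Fin N) | g.toWord = l}}) := rfl
  rw [this]
  exact ((isOpen_U 1).inter ((isOpen_ray_fst _ _).inter (isOpen_ray_snd _ _))).measurableSet

theorem SS_nil (l : List (Lt N)) : SS [] l = ∅ ∨ ∃ g : FreeGroup (Fin N), g.norm = l.length ∧
    SS [] l = Cyl g := by
  by_cases h : FreeGroup.IsReduced l
  · right
    have hw : (FreeGroup.mk l : FreeGroup (Fin N)).toWord = l := by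
      rw [FreeGroup.toWord_mk, h.reduce_eq]
    have hn : (FreeGroup.mk l : FreeGroup (Fin N)).norm = l.length := by
      unfold FreeGroup.norm
      rw [hw]
    refine ⟨FreeGroup.mk l, hn, ?_⟩
    ext q
    rw [mem_SS]
    unfold Cyl
    rw [Set.mem_ofPred_eq, hn]
    constructor
    · rintro ⟨a1, _, a3⟩
      refine ⟨a1, ?_⟩
      rw [← FreeGroup.mk_toWord (x := ray q.1.2 l.length), a3]
    · rintro ⟨a1, a3⟩
      refine ⟨a1, ?_, ?_⟩
      · simp [ray]
      · rw [a3, hw]
  · left
    rw [Set.eq_empty_iff_forall_notMem]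
    intro q hq
    apply h
    rw [← hq.2.2]
    exact FreeGroup.isReduced_toWord

theorem agree (h2 : S_KIR) {μ ν : Current N} {n : ℕ}
    (h : ∀ e : FreeGroup (Fin N), e.norm = n → ν.meas (Cyl e) = μ.meas (Cyl e)) :
    ∀ j, ∀ e : FreeGroup (Fin N), e.norm + j = n → ν.meas (Cyl e) = μ.meas (Cyl e) := by
  intro j
  induction j with
  | zero => exact h
  | succ j ih =>
    intro e he
    rw [← (h2 N ν e.norm).1 e rfl, ← (h2 N μ e.norm).1 e rfl]
    refine Finset.sum_congr rfl fun x hx => ih x ?_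
    have := (mem_sph.mp (Finset.mem_filter.mp hx).1)
    omega

theorem agree_SS (h2 : S_KIR) {μ ν : Current N} {n : ℕ}
    (h : ∀ e : FreeGroup (Fin N), e.norm = n → ν.meas (Cyl e) = μ.meas (Cyl e))
    {p l : List (Lt N)} (hpl : p.length + l.length ≤ n) :
    ν.meas (SS p l) = μ.meas (SS p l) := by
  have key : ∀ κ : Current N, κ.meas (SS p l) = κ.meas (SS [] (FreeGroup.invRev p ++ l)) := by
    intro κ
    rw [← inv_pre κ (FreeGroup.mk p : FreeGroup (Fin N))⁻¹ (meas_SS [] (FreeGroup.invRev p ++ l))]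
    congr 1
    ext q
    exact (shift_all p l q).symm
  rw [key, key]
  rcases SS_nil (FreeGroup.invRev p ++ l) with h3 | ⟨g, hg, h3⟩
  · rw [h3, measure_empty, measure_empty]
  · rw [h3]
    apply agree h2 h (n - g.norm)
    rw [hg, List.length_append, FreeGroup.invRev_length]
    omega

theorem head_ray (ζ : Bd N) (v : FreeGroup (Fin N)) (k : ℕ) (hk : v.norm + 2 ≤ k) :
    (v⁻¹ * ray ζ k).toWord.head? = some (ζ.1 v) := by
  obtain ⟨n, hn1, hn2⟩ := ((ray_conv ζ v).and (eventually_ge_atTop k)).exists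
  obtain ⟨j, rfl⟩ := Nat.exists_eq_add_of_le hn2
  rw [← hn1]
  clear hn1 hn2
  induction j with
  | zero => rfl
  | succ j ih =>
    rw [ih]
    symm
    apply head_close
    have e : (v⁻¹ * ray ζ (k + j))⁻¹ * (v⁻¹ * ray ζ (k + (j + 1))) = lt (ζ.1 (ray ζ (k + j))) := by
      rw [← add_assoc, ray]
      group
    rw [e, norm_lt]
    have h4 := FreeGroup.norm_mul_le v (v⁻¹ * ray ζ (k + j))
    rw [mul_inv_cancel_left, ray_norm] at h4
    omega

theorem ray_ext {ξ ζ : Bd N} (h : ∀ k, ray ξ k = ray ζ k) : ξ = ζ := by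
  apply Subtype.ext
  funext v
  have h1 := head_ray ξ v (v.norm + 2) le_rfl
  rw [h, head_ray ζ v (v.norm + 2) le_rfl] at h1
  exact (Option.some.inj h1).symm

theorem ray_down {ξ ζ : Bd N} {k : ℕ} (h : ray ξ (k + 1) = ray ζ (k + 1)) :
    ray ξ k = ray ζ k := by
  have h1 := congrArg FreeGroup.toWord h
  rw [ray_word, ray_word] at h1
  have h2 := (List.append_inj' h1 rfl).1
  exact FreeGroup.toWord_injective h2

theorem unif {f : Bd2 N → ℝ} (hf : Continuous f) {ε : ℝ} (hε : 0 < ε) :
    ∃ k : ℕ, ∀ q ∈ (U 1 : Set (Bd2 N)), ∀ q' ∈ (U 1 : Set (Bd2 N)),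
      ray q.1.1 k = ray q'.1.1 k → ray q.1.2 k = ray q'.1.2 k → |f q - f q'| < ε := by
  let W : Set (Bd2 N × Bd2 N) := {z | |f z.1 - f z.2| < ε}
  let V : ℕ → Set (Bd2 N × Bd2 N) := fun k =>
    {z | ¬ (ray z.1.1.1 k = ray z.2.1.1 k ∧ ray z.1.1.2 k = ray z.2.1.2 k)}
  have hW : IsOpen W := isOpen_lt
    ((hf.comp continuous_fst).sub (hf.comp continuous_snd)).abs continuous_const
  have hV : ∀ k, IsOpen (V k) := by
    intro k
    rw [isOpen_iff_mem_nhds]
    rintro ⟨q, q'⟩ hq
    have c1 : Continuous fun z : Bd2 N × Bd2 N => z.1.1.1 :=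
      continuous_fst.comp (continuous_subtype_val.comp continuous_fst)
    have c2 : Continuous fun z : Bd2 N × Bd2 N => z.1.1.2 :=
      continuous_snd.comp (continuous_subtype_val.comp continuous_fst)
    have c3 : Continuous fun z : Bd2 N × Bd2 N => z.2.1.1 :=
      continuous_fst.comp (continuous_subtype_val.comp continuous_snd)
    have c4 : Continuous fun z : Bd2 N × Bd2 N => z.2.1.2 :=
      continuous_snd.comp (continuous_subtype_val.comp continuous_snd)
    filter_upwards [(c1.continuousAt (x := (q, q'))).eventually (ray_locally q.1.1 k),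
      (c2.continuousAt (x := (q, q'))).eventually (ray_locally q.1.2 k),
      (c3.continuousAt (x := (q, q'))).eventually (ray_locally q'.1.1 k),
      (c4.continuousAt (x := (q, q'))).eventually (ray_locally q'.1.2 k)] with z h1 h2 h3 h4
    change ¬ (ray z.1.1.1 k = ray z.2.1.1 k ∧ ray z.1.1.2 k = ray z.2.1.2 k)
    rw [h1, h2, h3, h4]
    exact hq
  have hmono : Monotone fun k => W ∪ V k := by
    apply monotone_nat_of_le_succ
    intro k
    apply Set.union_subset_union_right
    intro z hz hc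
    exact hz ⟨ray_down hc.1, ray_down hc.2⟩
  obtain ⟨k, hk⟩ := (isCompact_U1.prod isCompact_U1).elim_directed_cover (fun k => W ∪ V k)
    (fun k => hW.union (hV k)) (by
      rintro ⟨q, q'⟩ _
      rw [Set.mem_iUnion]
      by_contra hc
      push Not at hc
      have h1 : ∀ k, ray q.1.1 k = ray q'.1.1 k ∧ ray q.1.2 k = ray q'.1.2 k := by
        intro k
        by_contra h2
        exact hc k (Or.inr h2)
      have h3 : q = q' := by
        apply Subtype.ext
        exact Prod.ext (ray_ext fun k => (h1 k).1) (ray_ext fun k => (h1 k).2)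
      apply hc 0
      left
      change |f q - f q'| < ε
      rw [h3, sub_self, abs_zero]
      exact hε) hmono.directed_le
  refine ⟨k, fun q hq q' hq' h1 h2 => ?_⟩
  rcases hk (Set.mk_mem_prod hq hq') with h3 | h3
  · exact h3
  · exact absurd ⟨h1, h2⟩ h3

theorem approx {f : Bd2 N → ℝ} (hf : Continuous f) (hU : ∀ q, q ∉ U 1 → f q = 0)
    {ε : ℝ} (hε : 0 < ε) : ∃ (k : ℕ) (c : FreeGroup (Fin N) × FreeGroup (Fin N) → ℝ),
    ∀ κ : Current N, |∫ q, f q ∂κ.meas -
      ∑ z ∈ sph N k ×ˢ sph N k, c z * κ.meas.real (SS z.1.toWord z.2.toWord)| ≤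
      ε * ∑ z ∈ sph N k ×ˢ sph N k, κ.meas.real (SS z.1.toWord z.2.toWord) := by
  classical
  obtain ⟨k, hk⟩ := unif hf hε
  let D : FreeGroup (Fin N) × FreeGroup (Fin N) → Set (Bd2 N) := fun z => SS z.1.toWord z.2.toWord
  let c : FreeGroup (Fin N) × FreeGroup (Fin N) → ℝ := fun z =>
    if h : (D z).Nonempty then f h.choose else 0
  refine ⟨k, c, fun κ => ?_⟩
  have hD : ∀ z ∈ sph N k ×ˢ sph N k, ∀ q, q ∈ D z ↔
      q ∈ U 1 ∧ ray q.1.1 k = z.1 ∧ ray q.1.2 k = z.2 := by
    intro z hz q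
    rw [Finset.mem_product] at hz
    have e1 : z.1.toWord.length = k := mem_sph.mp hz.1
    have e2 : z.2.toWord.length = k := mem_sph.mp hz.2
    change q ∈ SS z.1.toWord z.2.toWord ↔ _
    rw [mem_SS, e1, e2, FreeGroup.toWord_inj, FreeGroup.toWord_inj]
  have hUeq : (U 1 : Set (Bd2 N)) = ⋃ z ∈ sph N k ×ˢ sph N k, D z := by
    ext q
    rw [Set.mem_iUnion₂]
    constructor
    · intro hq
      have hz : (ray q.1.1 k, ray q.1.2 k) ∈ sph N k ×ˢ sph N k := by
        rw [Finset.mem_product, mem_sph, mem_sph]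
        exact ⟨ray_norm _ _, ray_norm _ _⟩
      exact ⟨(ray q.1.1 k, ray q.1.2 k), hz, (hD _ hz q).mpr ⟨hq, rfl, rfl⟩⟩
    · rintro ⟨z, hz, hq⟩
      exact ((hD z hz q).mp hq).1
  have hfin : ∀ z ∈ sph N k ×ˢ sph N k, κ.meas (D z) < ∞ := by
    intro z hz
    refine lt_of_le_of_lt (measure_mono ?_) (κ.finite _ isCompact_U1)
    intro q hq
    exact ((hD z hz q).mp hq).1
  have hint : IntegrableOn f (U 1) κ.meas :=
    haveI : IsFiniteMeasureOnCompacts κ.meas := ⟨fun K hK => κ.finite K hK⟩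
    hf.continuousOn.integrableOn_compact isCompact_U1
  have e1 : ∫ q, f q ∂κ.meas = ∫ q in U 1, f q ∂κ.meas :=
    (setIntegral_eq_integral_of_forall_compl_eq_zero fun q hq => hU q hq).symm
  have e2 : ∫ q in U 1, f q ∂κ.meas = ∑ z ∈ sph N k ×ˢ sph N k, ∫ q in D z, f q ∂κ.meas := by
    rw [hUeq]
    apply integral_biUnion_finset
    · intro z _
      exact meas_SS _ _
    · intro z hz z' hz' hne
      rw [Function.onFun, Set.disjoint_left]
      intro q h1 h2
      rw [hD z hz] at h1
      rw [hD z' hz'] at h2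
      apply hne
      exact Prod.ext (h1.2.1.symm.trans h2.2.1) (h1.2.2.symm.trans h2.2.2)
    · intro z hz
      apply hint.mono_set
      intro q hq
      exact ((hD z hz q).mp hq).1
  rw [e1, e2, ← Finset.sum_sub_distrib, Finset.mul_sum]
  refine (Finset.abs_sum_le_sum_abs _ _).trans (Finset.sum_le_sum fun z hz => ?_)
  have iA : IntegrableOn f (D z) κ.meas := by
    apply hint.mono_set
    intro q hq
    exact ((hD z hz q).mp hq).1
  have h1 : ∫ q in D z, (f q - c z) ∂κ.meas = ∫ q in D z, f q ∂κ.meas - c z * κ.meas.real (D z) := by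
    rw [integral_sub iA (integrableOn_const (hfin z hz).ne), setIntegral_const, smul_eq_mul,
      mul_comm]
  change |∫ q in D z, f q ∂κ.meas - c z * κ.meas.real (D z)| ≤ ε * κ.meas.real (D z)
  rw [← h1, ← Real.norm_eq_abs]
  refine norm_setIntegral_le_of_norm_le_const (hfin z hz) ?_
  intro q hq
  have hne : (D z).Nonempty := ⟨q, hq⟩
  have hc : c z = f hne.choose := dif_pos hne
  rw [hc, Real.norm_eq_abs]
  have h3 := (hD z hz _).mp hne.choose_spec
  have h4 := (hD z hz _).mp hq
  exact (hk q h4.1 _ h3.1 (h4.2.1.trans h3.2.1.symm) (h4.2.2.trans h3.2.2.symm)).le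

theorem base (h2 : S_KIR) {μ : Current N} {ν : ℕ → Current N}
    (h : ∀ n, 2 ≤ n → ∀ e : FreeGroup (Fin N), e.norm = n →
      (ν n).meas (Cyl e) = μ.meas (Cyl e)) (f : Bd2 N → ℝ) (hf : Continuous f)
    (hU : ∀ q, q ∉ U 1 → f q = 0) :
    Tendsto (fun k => ∫ q, f q ∂(ν k).meas) atTop (𝓝 (∫ q, f q ∂μ.meas)) := by
  -- bound of the total mass
  have htot : ∀ k, ∑ z ∈ sph N k ×ˢ sph N k, μ.meas.real (SS z.1.toWord z.2.toWord) ≤
      μ.meas.real (U 1) := by
    intro k
    have hfU : μ.meas (U 1) ≠ ∞ := (μ.finite _ isCompact_U1).ne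
    rw [← measureReal_biUnion_finset (μ := μ.meas) (s := sph N k ×ˢ sph N k)
      (f := fun z => SS z.1.toWord z.2.toWord) ?_ ?_ ?_]
    · apply measureReal_mono _ hfU
      intro q hq
      rw [Set.mem_iUnion₂] at hq
      obtain ⟨z, _, hq⟩ := hq
      exact hq.1
    · intro z hz z' hz' hne
      rw [Function.onFun, Set.disjoint_left]
      intro q h1 h2
      rw [Finset.mem_coe, Finset.mem_product] at hz hz'
      have e1 : z.1.toWord.length = k := mem_sph.mp hz.1
      have e2 : z.2.toWord.length = k := mem_sph.mp hz.2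
      have e1' : z'.1.toWord.length = k := mem_sph.mp hz'.1
      have e2' : z'.2.toWord.length = k := mem_sph.mp hz'.2
      rw [mem_SS, e1, e2] at h1
      rw [mem_SS, e1', e2'] at h2
      apply hne
      exact Prod.ext (FreeGroup.toWord_injective (h1.2.1.symm.trans h2.2.1))
        (FreeGroup.toWord_injective (h1.2.2.symm.trans h2.2.2))
    · intro z _
      exact meas_SS _ _
    · intro z _
      exact (lt_of_le_of_lt (measure_mono fun q hq => hq.1) (μ.finite _ isCompact_U1)).ne
  rw [Metric.tendsto_atTop]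
  intro ε hε
  set M : ℝ := μ.meas.real (U 1) with hMdef
  have hM0 : 0 ≤ M := measureReal_nonneg
  obtain ⟨k, c, hk⟩ := approx hf hU (ε := ε / (2 * (M + 1))) (by positivity)
  refine ⟨2 * k + 2, fun n hn => ?_⟩
  have h3 := hk (ν n)
  have h4 := hk μ
  have h5 : ∀ z ∈ sph N k ×ˢ sph N k, (ν n).meas.real (SS z.1.toWord z.2.toWord) =
      μ.meas.real (SS z.1.toWord z.2.toWord) := by
    intro z hz
    rw [Finset.mem_product] at hz
    have e1 : z.1.toWord.length = k := mem_sph.mp hz.1
    have e2 : z.2.toWord.length = k := mem_sph.mp hz.2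
    rw [Measure.real, Measure.real, agree_SS h2 (h n (by omega)) (by rw [e1, e2]; omega)]
  rw [Finset.sum_congr rfl fun z hz => by rw [h5 z hz], Finset.sum_congr rfl h5] at h3
  have h6 := htot k
  have h7 : ε / (2 * (M + 1)) * ∑ z ∈ sph N k ×ˢ sph N k,
      μ.meas.real (SS z.1.toWord z.2.toWord) < ε / 2 := by
    have : ε / (2 * (M + 1)) * ∑ z ∈ sph N k ×ˢ sph N k,
      μ.meas.real (SS z.1.toWord z.2.toWord) ≤ ε / (2 * (M + 1)) * M := by
      apply mul_le_mul_of_nonneg_left h6
      positivity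
    refine lt_of_le_of_lt this ?_
    rw [div_mul_eq_mul_div, div_lt_div_iff₀ (by positivity) (by norm_num)]
    nlinarith
  rw [Real.dist_eq]
  rw [abs_le] at h3 h4
  rw [abs_lt]
  constructor <;> linarith [h3.1, h3.2, h4.1, h4.2]

theorem tendsto_of_base {ν : ℕ → Current N} {μ : Current N}
    (base : ∀ f : Bd2 N → ℝ, Continuous f → (∀ q, q ∉ U 1 → f q = 0) →
      Tendsto (fun k => ∫ q, f q ∂(ν k).meas) atTop (𝓝 (∫ q, f q ∂μ.meas))) :
    Tendsto ν atTop (𝓝 μ) := by
  classical
  have single : ∀ (v : FreeGroup (Fin N)) (f : Bd2 N → ℝ), Continuous f →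
      (∀ q, q ∉ U v → f q = 0) →
      Tendsto (fun k => ∫ q, f q ∂(ν k).meas) atTop (𝓝 (∫ q, f q ∂μ.meas)) := by
    intro v f hf hU
    have h3 := base (fun q => f (v • q)) (hf.comp (continuous_smul_bd2 v)) (by
      intro q hq
      apply hU
      intro h
      have := (smul_mem_U v 1 q).mp (by rw [mul_one]; exact h)
      exact hq this)
    simp only [integral_smul_pre _ v hf] at h3
    exact h3
  rw [tendsto_current_iff]
  have main : ∀ (B : Finset (FreeGroup (Fin N))) (f : Bd2 N → ℝ), Continuous f →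
      HasCompactSupport f → (∀ q, f q ≠ 0 → ∃ v ∈ B, q ∈ U v) →
      Tendsto (fun k => ∫ q, f q ∂(ν k).meas) atTop (𝓝 (∫ q, f q ∂μ.meas)) := by
    intro B
    induction B using Finset.induction_on with
    | empty =>
      intro f _ _ h3
      have : f = fun _ => 0 := by
        funext q
        by_contra hc
        obtain ⟨v, hv, _⟩ := h3 q hc
        simp at hv
      rw [this]
      simp
    | insert v B _ ih =>
      intro f hf hcs h3
      have hc1 : Continuous ((U v).indicator f) := by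
        apply continuous_indicator
        · intro a ha
          rw [(isClopen_U v).frontier_eq] at ha
          exact absurd ha (Set.notMem_empty _)
        · exact hf.continuousOn
      have hc2 : Continuous ((U v)ᶜ.indicator f) := by
        apply continuous_indicator
        · intro a ha
          rw [(isClopen_U v).compl.frontier_eq] at ha
          exact absurd ha (Set.notMem_empty _)
        · exact hf.continuousOn
      have hs1 : HasCompactSupport ((U v).indicator f) :=
        hcs.mono (Set.support_indicator.trans_subset Set.inter_subset_right)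
      have hs2 : HasCompactSupport ((U v)ᶜ.indicator f) :=
        hcs.mono (Set.support_indicator.trans_subset Set.inter_subset_right)
      have t1 := single v _ hc1 (fun q hq => Set.indicator_of_notMem hq f)
      have t2 := ih _ hc2 hs2 (by
        intro q hq
        have hq1 : q ∉ U v := by
          intro h
          have h' : q ∉ ((U v)ᶜ : Set (Bd2 N)) := fun h' => h' h
          exact hq (Set.indicator_of_notMem h' f)
        have hq2 : f q ≠ 0 := by
          rwa [Set.indicator_of_mem (by exact hq1)] at hq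
        obtain ⟨w, hw, hqw⟩ := h3 q hq2
        rcases Finset.mem_insert.mp hw with rfl | hw
        · exact absurd hqw hq1
        · exact ⟨w, hw, hqw⟩)
      have hadd : ∀ κ : Current N, ∫ q, f q ∂κ.meas =
          ∫ q, (U v).indicator f q ∂κ.meas + ∫ q, (U v)ᶜ.indicator f q ∂κ.meas := by
        intro κ
        rw [← integral_add (integrable_test κ ⟨_, hc1, hs1⟩) (integrable_test κ ⟨_, hc2, hs2⟩)]
        congr 1
        funext q
        exact (congrFun (Set.indicator_self_add_compl (U v) f) q).symm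
      simp only [hadd]
      exact t1.add t2
  intro f hf hcs
  obtain ⟨B, hB⟩ := hcs.isCompact.elim_finite_subcover
    (fun v : FreeGroup (Fin N) => (U v : Set (Bd2 N))) (fun v => isOpen_U v) (fun q _ => by
      obtain ⟨v, hv⟩ := exists_mem_U q
      exact Set.mem_iUnion.mpr ⟨v, hv⟩)
  apply main B f hf hcs
  intro q hq
  have := hB (subset_tsupport f hq)
  rw [Set.mem_iUnion₂] at this
  obtain ⟨v, hv, h⟩ := this
  exact ⟨v, hv, h⟩

/-- Convergence can be checked on cylinders. -/
theorem t (h2 : S_KIR) : S_APX := by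
  intro N μ ν h
  exact tendsto_of_base (base h2 h)

end Pool.Agent.N339.PSC
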